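import Pool.Agent.U602.JD.Crit
import Pool.Agent.Y961.JR.ScaledJ
import Pool.Agent.TH915.PW.IntCrit

set_option autoImplicit false

/-! # The joint criterion with the primes dividing `D` excluded, in terms of exponential sums -/

namespace Pool.Agent.U602.JD

open Finset Filter
open Pool.Agent.H469R2.NK (e norm_e e_add)
open Pool.Agent.H256R2.SC (ff)
open Pool.Agent.Y961.JR (ev_small ev_bounds no_prime discJ ff_scaled)
open Pool.Agent.TH915.PW (class_le e_int sum_char)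

/-- the joint criterion for vectors of real numbers together with an integer -/
theorem crit_exp1JD (r : ℕ) (hr : 1 ≤ r) (D : ℕ) (hD : 0 < D) : ∃ κ : ℝ, 0 < κ ∧ ∃ X₀ : ℝ, ∀ X : ℝ, X₀ ≤ X →
    ∀ (ι : Type) (s : Finset ι) (u : ι → ℤ) (a : ι → Fin r → ℝ), s.Nonempty →
    (∀ i ∈ s, X ≤ (u i : ℝ)) → (∀ i ∈ s, ∀ j, X ≤ a i j) →
    (∀ q : ℕ, 1 ≤ q → (q : ℝ) ≤ X ^ (2 / 5 : ℝ) → q.Coprime D → ∀ b : ℤ,
      |((s.filter (fun i => (q : ℤ) ∣ u i - b)).card : ℝ) - s.card / q| ≤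
        s.card * X ^ (-(20 * ((r : ℝ) + 1) ^ 2)) ∧
      ∀ h : Fin r → ℤ, h ≠ 0 → (∀ j, |(h j : ℝ)| ≤ X ^ (10 * (r + 1))) →
      ‖∑ i ∈ s.filter (fun i => (q : ℤ) ∣ u i - b), e (∑ j, (h j : ℝ) * (a i j / q))‖ ≤
        s.card * X ^ (-(20 * ((r : ℝ) + 1) ^ 2))) →
    ∃ i ∈ s, (∀ q : ℕ, q.Prime → κ * ff X < |(q : ℝ) - u i|) ∧
      ∀ j, ∀ q : ℕ, q.Prime → κ * ff X < |(q : ℝ) - a i j| := by
  obtain ⟨κ, hκ, X₁, h1⟩ := critJD (r + 1) (by omega) D hD
  obtain ⟨X₂, h2⟩ := eventually_atTop.mp (ev_bounds r (r + 1) hr (by omega))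
  obtain ⟨X₃, h3⟩ := eventually_atTop.mp ev_small
  refine ⟨κ, hκ, max X₁ (max X₂ X₃), ?_⟩
  intro X hX ι s u a hs hu ha hE
  obtain ⟨b1, b2⟩ := h2 X (((le_max_left _ _).trans (le_max_right _ _)).trans hX)
  obtain ⟨c1, c2⟩ := h3 X (((le_max_right _ _).trans (le_max_right _ _)).trans hX)
  obtain ⟨hfl, hcr⟩ := h1 X ((le_max_left _ _).trans hX)
  have hX0 : 0 < X := by linarith
  have hcast : (((r + 1 : ℕ) : ℝ)) = (r : ℝ) + 1 := by push_cast; rfl
  obtain ⟨i, hi, hi2⟩ := hcr ι s (fun i => Fin.cons (u i) (fun j => ⌊a i j⌋)) hs (by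
    intro q hq hqX hqD ρ
    have hq0 : (0 : ℝ) < q := by exact_mod_cast hq
    have hq1 : (1 : ℝ) ≤ q := by exact_mod_cast hq
    obtain ⟨k1, k2, k3, k4⟩ := b2 q hq hqX s.card (Nat.cast_nonneg _)
    obtain ⟨g1, g2⟩ := hE q hq hqX hqD (ρ 0)
    set s' := s.filter (fun i => (q : ℤ) ∣ u i - ρ 0) with hs'
    rw [hcast] at k4
    have hd := discJ hr s' a ⌈X ^ (3 * (r + 1))⌉₊ q k1 hq k2
      (s.card * X ^ (-(20 * ((r : ℝ) + 1) ^ 2)))
      (by positivity) (fun h hh hh2 => g2 h hh (fun j => by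
        have h5 : ((h j).natAbs : ℝ) < ((⌈X ^ (3 * (r + 1))⌉₊ : ℕ) : ℝ) ^ 3 := by
          exact_mod_cast hh2 j
        have h6 : |(h j : ℝ)| = ((h j).natAbs : ℝ) := by
          rw [Nat.cast_natAbs]; push_cast; rfl
        rw [h6]
        exact h5.le.trans k3)) (fun j => ρ j.succ)
    have hfil : (s.filter (fun i => ∀ j, (q : ℤ) ∣
        (Fin.cons (u i) (fun j => ⌊a i j⌋) : Fin (r + 1) → ℤ) j - ρ j)) =
        s'.filter (fun i => ∀ j : Fin r, (q : ℤ) ∣ ⌊a i j⌋ - ρ j.succ) := by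
      rw [hs', Finset.filter_filter]
      apply Finset.filter_congr
      intro i _
      rw [Fin.forall_fin_succ]
      simp only [Fin.cons_zero, Fin.cons_succ]
    rw [hfil]
    have hcard : (s'.card : ℝ) ≤ s.card := by
      exact_mod_cast Finset.card_filter_le _ _
    have t1 : (q : ℝ) ^ r * ((3 * (r : ℝ) + 4) * s'.card / (⌈X ^ (3 * (r + 1))⌉₊ : ℕ) +
        ((⌈X ^ (3 * (r + 1))⌉₊ : ℕ) : ℝ) ^ (3 * r) *
          (s.card * X ^ (-(20 * ((r : ℝ) + 1) ^ 2)))) ≤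
        s.card * X ^ (-(2 * ((r : ℝ) + 1))) / 2 := by
      refine le_trans ?_ k4
      gcongr
    have t2 : |(s'.card : ℝ) / (q : ℝ) ^ r - s.card / (q : ℝ) ^ (r + 1)| ≤
        s.card * X ^ (-(2 * ((r : ℝ) + 1))) / 2 := by
      have e1 : (s'.card : ℝ) / (q : ℝ) ^ r - s.card / (q : ℝ) ^ (r + 1) =
          (s'.card - s.card / q) / (q : ℝ) ^ r := by
        rw [pow_succ]
        field_simp
      have hqr : 1 ≤ (q : ℝ) ^ r := one_le_pow₀ hq1
      rw [e1, abs_div, abs_of_pos (show (0 : ℝ) < (q : ℝ) ^ r by positivity)]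
      refine (div_le_self (abs_nonneg _) hqr).trans (g1.trans ?_)
      rw [mul_div_assoc]
      apply mul_le_mul_of_nonneg_left _ (Nat.cast_nonneg _)
      have hr1 : (1 : ℝ) ≤ r := by exact_mod_cast hr
      calc X ^ (-(20 * ((r : ℝ) + 1) ^ 2)) ≤ X ^ (-(2 * ((r : ℝ) + 1)) + (-1)) := by
            apply Real.rpow_le_rpow_of_exponent_le (by linarith)
            nlinarith
        _ = X ^ (-(2 * ((r : ℝ) + 1))) * X ^ (-1 : ℝ) := Real.rpow_add hX0 _ _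
        _ ≤ X ^ (-(2 * ((r : ℝ) + 1))) * (1 / 2) := by
            apply mul_le_mul_of_nonneg_left _ (Real.rpow_nonneg hX0.le _)
            rw [Real.rpow_neg_one, ← one_div]
            exact one_div_le_one_div_of_le (by norm_num) (by linarith)
        _ = _ := by ring
    rw [hcast]
    have t3 := hd.trans t1
    have t4 := abs_le.mp t3
    have t5 := abs_le.mp t2
    rw [abs_le]
    constructor <;> linarith [t4.1, t4.2, t5.1, t5.2])
  refine ⟨i, hi, ?_, ?_⟩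
  · intro q hq
    apply no_prime κ X hfl c1 c2 (u i) (hu i hi) _ q hq
    intro m hm
    rw [Int.floor_intCast] at hm
    exact hi2 0 m (by simpa using hm)
  · intro j q hq
    apply no_prime κ X hfl c1 c2 (a i j) (ha i hi j) _ q hq
    intro m hm
    exact hi2 j.succ m (by simpa using hm)

/-- sums over a residue class -/
lemma class_sum_le {ι : Type*} (s : Finset ι) (v : ι → ℤ) (F : ι → ℂ) (q : ℕ) (hq : 1 ≤ q) (E : ℝ)
    (hE : ∀ l : ℕ, l < q → ‖∑ i ∈ s, e ((l : ℝ) / q * v i) * F i‖ ≤ E) (r : ℤ) :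
    ‖∑ i ∈ s.filter (fun i => (q : ℤ) ∣ v i - r), F i‖ ≤ E := by
  classical
  have hq0 : 0 < q := hq
  have hq' : (0 : ℝ) < q := by exact_mod_cast hq0
  have h1 : ∀ m : ℤ, ∑ h ∈ range q, e (m * ((h : ℝ) / q)) = if (q : ℤ) ∣ m then (q : ℂ) else 0 := by
    intro m
    split_ifs with hm
    · obtain ⟨t, rfl⟩ := hm
      have : ∀ h ∈ range q, e (((q : ℤ) * t : ℤ) * ((h : ℝ) / q)) = 1 := by
        intro h _
        have e1 : (((q : ℤ) * t : ℤ) : ℝ) * ((h : ℝ) / q) = ((t * h : ℤ) : ℝ) := by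
          push_cast
          field_simp
        rw [e1]
        exact e_int _
      rw [sum_congr rfl this]
      simp
    · exact sum_char q hq0 m hm
  have h2 : ∑ h ∈ range q, e (-(r : ℝ) * ((h : ℝ) / q)) * ∑ i ∈ s, e ((h : ℝ) / q * v i) * F i =
      (q : ℂ) * ∑ i ∈ s.filter (fun i => (q : ℤ) ∣ v i - r), F i := by
    have : ∀ h ∈ range q, e (-(r : ℝ) * ((h : ℝ) / q)) * ∑ i ∈ s, e ((h : ℝ) / q * v i) * F i =
        ∑ i ∈ s, e (((v i - r : ℤ) : ℝ) * ((h : ℝ) / q)) * F i := by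
      intro h _
      rw [mul_sum]
      refine sum_congr rfl fun i _ => ?_
      rw [← mul_assoc, ← e_add]
      congr 2
      push_cast
      ring
    rw [sum_congr rfl this, sum_comm, mul_sum, sum_filter]
    refine sum_congr rfl fun i _ => ?_
    rw [← sum_mul, h1]
    split_ifs
    · rfl
    · rw [zero_mul]
  have h4 : ‖∑ h ∈ range q, e (-(r : ℝ) * ((h : ℝ) / q)) * ∑ i ∈ s, e ((h : ℝ) / q * v i) * F i‖ ≤
      q * E := by
    refine (norm_sum_le _ _).trans ?_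
    calc _ ≤ ∑ h ∈ range q, E := by
          refine sum_le_sum fun h hh => ?_
          rw [norm_mul, norm_e, one_mul]
          exact hE h (mem_range.1 hh)
      _ = q * E := by rw [sum_const, card_range, nsmul_eq_mul]
  rw [h2, norm_mul, Complex.norm_natCast] at h4
  exact le_of_mul_le_mul_left h4 hq'

/-- The joint criterion for an integer and real numbers, at the scale of a power of `M`, with the
primes dividing `D` excluded. -/
theorem crit_joint (r : ℕ) (hr : 1 ≤ r) (D : ℕ) (hD : 0 < D) (η : ℝ) (h0 : 0 < η) (h1 : η ≤ 1) :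
    ∃ κ : ℝ, 0 < κ ∧ ∀ᶠ M : ℝ in atTop,
    ∀ (ι : Type) (s : Finset ι) (u : ι → ℤ) (a : ι → Fin r → ℝ), s.Nonempty →
    (∀ i ∈ s, M ^ η ≤ (u i : ℝ)) → (∀ i ∈ s, ∀ j, M ^ η ≤ a i j) →
    (∀ q : ℕ, 1 ≤ q → (q : ℝ) ≤ M ^ η → q.Coprime D →
      (∀ l : ℕ, 1 ≤ l → l < q → ‖∑ i ∈ s, e ((l : ℝ) / q * u i)‖ ≤ s.card * M ^ (-η)) ∧
      (∀ l : ℕ, l < q → ∀ h : Fin r → ℤ, h ≠ 0 → (∀ j, |(h j : ℝ)| ≤ M ^ η) →
        ‖∑ i ∈ s, e ((l : ℝ) / q * u i + ∑ j, (h j : ℝ) * (a i j / q))‖ ≤ s.card * M ^ (-η))) →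
    ∃ i ∈ s, (∀ q : ℕ, q.Prime → κ * Pool.Agent.W147.PS.ff M < |(q : ℝ) - u i|) ∧
      ∀ j, ∀ q : ℕ, q.Prime → κ * Pool.Agent.W147.PS.ff M < |(q : ℝ) - a i j| := by
  obtain ⟨κ, hκ, X₀, hc⟩ := crit_exp1JD r hr D hD
  have hr1 : (1 : ℝ) ≤ r := by exact_mod_cast hr
  set θ : ℝ := η / (20 * ((r : ℝ) + 1) ^ 2) with hθ
  have hr2 : (1 : ℝ) ≤ ((r : ℝ) + 1) ^ 2 := one_le_pow₀ (by linarith)
  have hθ0 : 0 < θ := by positivity
  have hθη : θ ≤ η := div_le_self h0.le (by linarith)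
  have hθ1 : θ ≤ 1 := hθη.trans h1
  refine ⟨κ * (θ / 32), by positivity, ?_⟩
  filter_upwards [Pool.Agent.W147.PS.ff_compare θ hθ0 hθ1,
    (tendsto_rpow_atTop hθ0).eventually_ge_atTop X₀,
    eventually_ge_atTop (1 : ℝ)] with M hM hMX hM1
  intro ι s u a hs hu ha hE
  have hM0 : 0 < M := by linarith
  have hmono : ∀ x y : ℝ, x ≤ y → M ^ x ≤ M ^ y := fun x y h =>
    Real.rpow_le_rpow_of_exponent_le hM1 h
  have hexp : (M ^ θ) ^ (-(20 * ((r : ℝ) + 1) ^ 2)) = M ^ (-η) := by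
    rw [← Real.rpow_mul hM0.le]
    congr 1
    rw [hθ]
    field_simp
  obtain ⟨i, hi, hi2, hi3⟩ := hc (M ^ θ) hMX ι s u a hs
    (fun i hi => (hmono _ _ hθη).trans (hu i hi))
    (fun i hi j => (hmono _ _ hθη).trans (ha i hi j)) (by
    intro q hq hqX hqD b
    obtain ⟨g1, g2⟩ := hE q hq (hqX.trans (by
      rw [← Real.rpow_mul hM0.le]
      apply hmono
      linarith)) hqD
    rw [hexp]
    refine ⟨class_le s u q hq _ (by positivity) g1 b, fun h hh hhX => ?_⟩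
    have hhX' : ∀ j, |(h j : ℝ)| ≤ M ^ η := fun j => (hhX j).trans (by
      rw [← Real.rpow_natCast, ← Real.rpow_mul hM0.le]
      apply hmono
      push_cast
      have e1 : θ * (10 * ((r : ℝ) + 1)) * (2 * (r + 1)) = η := by
        rw [hθ]; field_simp; norm_num
      have e2 : 0 ≤ θ * (10 * ((r : ℝ) + 1)) := by positivity
      nlinarith)
    apply class_sum_le s u (fun i => e (∑ j, (h j : ℝ) * (a i j / q))) q hq _ _ b
    intro l hl
    have := g2 l hl h hh hhX'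
    simpa only [e_add] using this)
  refine ⟨i, hi, fun q hq => lt_of_le_of_lt ?_ (hi2 q hq),
    fun j q hq => lt_of_le_of_lt ?_ (hi3 j q hq)⟩
  · exact ff_scaled κ θ M hκ hθ1 hM1 hM.2
  · exact ff_scaled κ θ M hκ hθ1 hM1 hM.2

end Pool.Agent.U602.JD
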