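import Pool.Agent.U602.JD.Exp
import Pool.Agent.U602.AU.Bound2
import Pool.Agent.U602.AU.Local

set_option autoImplicit false
set_option linter.unusedSectionVars false

/-! Record gaps around a number and its multiples in a block of digits. -/

namespace Pool.Agent.U602.JD

open Finset Filter Topology
open Pool.Agent.H469R2.NK (e norm_e e_add e_zero)
open Pool.Agent.W147.PS (ff ff_compare ev_pow)
open Pool.Agent.U602.AU (T W W_apply auto_gen card_ge)

lemma ev_lin {r : ℕ} (η : ℝ) (hη : η < 1) (α β : Fin r → ℝ) (hα : ∀ j, 0 < α j) :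
    ∀ᶠ M : ℝ in atTop, ∀ u : ℝ, M ≤ u → ∀ j, M ^ η ≤ α j * u + β j := by
  have h1 : ∀ j : Fin r, ∀ᶠ M : ℝ in atTop, M ^ η ≤ α j * M + β j := by
    intro j
    have hj := hα j
    filter_upwards [ev_pow η 1 (2 / α j) hη, eventually_ge_atTop (2 * |β j| / α j)] with Z h1 h2
    rw [Real.rpow_one, div_mul_eq_mul_div, div_le_iff₀ hj] at h1
    rw [div_le_iff₀ hj] at h2
    have := neg_abs_le (β j)
    linarith
  filter_upwards [eventually_all.mpr h1] with M hM u hu j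
  have := hM j
  have hj := hα j
  nlinarith

section

variable {Q : Type} [Fintype Q] {b : ℕ} {δ : ℕ → Q → Q}

/-- record gaps around the numbers which lead the automaton from `x` to `y` and their multiples -/
theorem loc_lin (hb : 2 ≤ b) (hfull : ∀ x z : Q, ∃ d < b, δ d x = z) (r : ℕ) (hr : 1 ≤ r)
    (α β : Fin r → ℝ) (hα : ∀ j, 0 < α j) (c τ : ℝ) (hc : 0 < c) (hτ : 0 ≤ τ)
    (hdio : ∀ (H : ℕ) (h : Fin r → ℤ), h ≠ 0 → (∀ j, |h j| ≤ H) → ∀ m : ℤ,
      c * (H : ℝ) ^ (-τ) ≤ |∑ j, (h j : ℝ) * α j - m|)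
    (J : ℕ) (hJ : τ + 1 ≤ J) (ε : ℝ) (hε : 0 < ε) :
    ∃ κ : ℝ, 0 < κ ∧ ∀ᶠ M : ℝ in atTop, ∀ K n : ℕ, M ^ ε ≤ (b : ℝ) ^ (J * K + K) →
      M ≤ n * (b : ℝ) ^ (J * K + K) → ∀ x y : Q, ∃ m < b ^ (J * K + K),
        T b δ (J * K + K) m x = y ∧
        (∀ q : ℕ, q.Prime → κ * ff M < |(q : ℝ) - ((b ^ (J * K + K) * n + m : ℕ) : ℝ)|) ∧
        ∀ j, ∀ q : ℕ, q.Prime →
          κ * ff M < |(q : ℝ) - (α j * ((b ^ (J * K + K) * n + m : ℕ) : ℝ) + β j)| := by
  classical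
  obtain ⟨C, a, hC, ha0, ha1, hW⟩ := auto_gen (δ := δ) hb hfull
  have hbR : (2 : ℝ) ≤ b := by exact_mod_cast hb
  have hb0 : (0 : ℝ) < b := by linarith
  have hlb : 0 < Real.log b := Real.log_pos (by linarith)
  have hla : Real.log a < 0 := Real.log_neg ha0 ha1
  set γ : ℝ := -Real.log a / Real.log b with hγ
  have hγ0 : 0 < γ := div_pos (by linarith) hlb
  have hab : ∀ K : ℕ, a ^ K = ((b : ℝ) ^ K) ^ (-γ) := by
    intro K
    rw [← Real.rpow_natCast a, ← Real.rpow_natCast (b : ℝ), ← Real.rpow_mul (by linarith),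
      Real.rpow_def_of_pos ha0, Real.rpow_def_of_pos (by linarith)]
    congr 1
    rw [hγ]
    field_simp
  have hJ1 : (1 : ℝ) ≤ J := by linarith
  set ε₂ : ℝ := ε / (J + 1) with hε₂
  have hε₂0 : 0 < ε₂ := by positivity
  have hbK : ∀ (K : ℕ) (M : ℝ), 1 ≤ M → M ^ ε ≤ (b : ℝ) ^ (J * K + K) → M ^ ε₂ ≤ (b : ℝ) ^ K := by
    intro K M hM h
    have hM0 : 0 < M := by linarith
    have h1 : M ^ ε = (M ^ ε₂) ^ (J + 1) := by
      rw [← Real.rpow_natCast, ← Real.rpow_mul hM0.le]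
      congr 1
      rw [hε₂]
      push_cast
      field_simp
    have h2 : (b : ℝ) ^ (J * K + K) = ((b : ℝ) ^ K) ^ (J + 1) := by
      rw [← pow_mul]
      congr 1
      ring
    rw [h1, h2] at h
    exact le_of_pow_le_pow_left₀ (by omega) (by positivity) h
  set nQ : ℝ := ((Fintype.card Q : ℕ) : ℝ) with hnQ
  rcases isEmpty_or_nonempty Q with hQ | hQ
  · exact ⟨1, one_pos, Eventually.of_forall fun M K n _ _ x => (hQ.false x).elim⟩
  have hnQ1 : 1 ≤ nQ := by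
    rw [hnQ]
    exact_mod_cast Fintype.card_pos
  set c₀ : ℝ := min 1 (c * nQ ^ (-τ)) with hc₀
  have hc₀0 : 0 < c₀ := by
    rw [hc₀]
    have : 0 < nQ ^ (-τ) := Real.rpow_pos_of_pos (by linarith) _
    positivity
  set η : ℝ := min (1 / 2) (min (ε₂ * γ / 2) (ε₂ / (2 * (τ + 3)))) with hη
  have hη0 : 0 < η := by rw [hη]; positivity
  have hη1 : η ≤ 1 / 2 := min_le_left _ _
  have hη2 : η ≤ ε₂ * γ / 2 := (min_le_right _ _).trans (min_le_left _ _)
  have hη3 : η ≤ ε₂ / (2 * (τ + 3)) := (min_le_right _ _).trans (min_le_right _ _)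
  rw [le_div_iff₀ (by positivity)] at hη3
  set D : ℕ := b * (Fintype.card Q).factorial with hD
  have hD0 : 0 < D := Nat.mul_pos (by omega) (Nat.factorial_pos _)
  obtain ⟨κ, hκ, hcrit⟩ := crit_joint r hr D hD0 η hη0 (by linarith)
  refine ⟨κ, hκ, ?_⟩
  filter_upwards [hcrit, eventually_ge_atTop (1 : ℝ), ev_lin η (by linarith) α β hα,
    ev_pow (-(ε₂ * γ)) (-η) (2 * C * b) (by nlinarith [mul_pos hε₂0 hγ0]),
    ev_pow (-ε₂ + (1 + τ) * η) (-η) (2 * C * b / c₀) (by nlinarith),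
    (tendsto_rpow_atTop hε).eventually_ge_atTop 2] with M hM hM1 hMlin hMa hMb hM2
  intro K n hK hn x y
  have hM0 : 0 < M := by linarith
  have hK1 : 1 ≤ K := by
    by_contra hlt
    have : K = 0 := by omega
    rw [this] at hK
    norm_num at hK
    linarith
  set L : ℕ := J * K + K with hL
  set B : ℝ := (b : ℝ) ^ L with hB
  have hB0 : 0 < B := by positivity
  have hbKM := hbK K M hM1 hK
  have hbK0 : (0 : ℝ) < (b : ℝ) ^ K := by positivity
  obtain ⟨L', hL'⟩ : ∃ L', L = L' + 1 := ⟨L - 1, by omega⟩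
  set s : Finset ℕ := (range (b ^ L)).filter (fun m => T b δ L m x = y) with hs
  have hcard : b ^ L' ≤ s.card := by
    rw [hs, hL']
    exact card_ge hfull L' x y
  have hcardR : B / b ≤ s.card := by
    have h1 : B / b = (b : ℝ) ^ L' := by
      rw [hB, hL', pow_succ, mul_div_cancel_right₀ _ (by linarith)]
    rw [h1]
    exact_mod_cast hcard
  have hsne : s.Nonempty := by
    rw [← card_pos]
    have : 0 < b ^ L' := Nat.pow_pos (by omega)
    omega
  -- the bound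
  set ρ : ℝ := c₀ * M ^ (-((1 + τ) * η)) * ((b : ℝ) ^ K) ^ (-τ) with hρ
  have hρ0 : 0 < ρ := by positivity
  set φ : Q → ℂ := fun z => if z = y then 1 else 0 with hφ
  have hφn : ‖φ‖ ≤ 1 := by
    rw [pi_norm_le_iff_of_nonneg zero_le_one]
    intro z
    rw [hφ]
    simp only
    split_ifs <;> simp
  have hkey : ∀ θ ψ : ℝ, (∀ q₀ : ℕ, 1 ≤ q₀ → q₀ ≤ Fintype.card Q → ∀ k : ℤ,
      ρ ≤ |q₀ * ((b : ℝ) ^ K * θ) - k|) → ‖∑ m ∈ s, e (ψ + θ * m)‖ ≤ s.card * M ^ (-η) := by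
    intro θ ψ hθ
    have e1 : ∑ m ∈ s, e (ψ + θ * m) = e ψ * W b δ L θ φ x := by
      rw [W_apply, mul_sum, hs, sum_filter]
      refine sum_congr rfl fun m _ => ?_
      rw [hφ]
      simp only
      split_ifs with h1
      · rw [mul_one, ← e_add]
        congr 1
        ring
      · simp
    rw [e1, norm_mul, norm_e, one_mul]
    refine (norm_le_pi_norm _ x).trans ?_
    refine (hW (J * K) K θ ρ φ hρ0 hθ).trans ?_
    have e2 : a ^ K ≤ M ^ (-(ε₂ * γ)) := by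
      rw [hab K]
      have h1 : -(ε₂ * γ) = ε₂ * (-γ) := by ring
      rw [h1, Real.rpow_mul hM0.le]
      exact Real.rpow_le_rpow_of_nonpos (by positivity) hbKM (by linarith)
    have e3 : (b : ℝ) ^ K / ρ ≤ 1 / c₀ * (B * M ^ (-ε₂ + (1 + τ) * η)) := by
      have f1 : (b : ℝ) ^ K / ρ =
          1 / c₀ * (((b : ℝ) ^ K * ((b : ℝ) ^ K) ^ τ) * M ^ ((1 + τ) * η)) := by
        rw [hρ, Real.rpow_neg hM0.le, Real.rpow_neg hbK0.le]
        field_simp
      have hbK1 : 1 ≤ (b : ℝ) ^ K := one_le_pow₀ (by linarith)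
      have f2 : (b : ℝ) ^ K * ((b : ℝ) ^ K) ^ τ ≤ ((b : ℝ) ^ K) ^ J := by
        rw [← Real.rpow_natCast ((b : ℝ) ^ K) J]
        nth_rewrite 1 [← Real.rpow_one ((b : ℝ) ^ K)]
        rw [← Real.rpow_add hbK0]
        exact Real.rpow_le_rpow_of_exponent_le hbK1 (by linarith)
      have f3 : ((b : ℝ) ^ K) ^ J ≤ B * M ^ (-ε₂) := by
        have g1 : B = ((b : ℝ) ^ K) ^ J * (b : ℝ) ^ K := by
          rw [hB, hL, pow_add, ← pow_mul, mul_comm J K]
        rw [g1, Real.rpow_neg hM0.le, ← div_eq_mul_inv, le_div_iff₀ (by positivity)]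
        gcongr
      rw [f1, Real.rpow_add hM0]
      have f4 := f2.trans f3
      have f5 : 0 ≤ M ^ ((1 + τ) * η) := by positivity
      calc 1 / c₀ * (((b : ℝ) ^ K * ((b : ℝ) ^ K) ^ τ) * M ^ ((1 + τ) * η)) ≤
            1 / c₀ * ((B * M ^ (-ε₂)) * M ^ ((1 + τ) * η)) :=
              mul_le_mul_of_nonneg_left (mul_le_mul_of_nonneg_right f4 f5) (by positivity)
        _ = _ := by ring
    have e4 : C * (a ^ K * (b : ℝ) ^ (J * K + K) + (b : ℝ) ^ K / ρ) * ‖φ‖ ≤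
        C * (M ^ (-(ε₂ * γ)) * B + 1 / c₀ * (B * M ^ (-ε₂ + (1 + τ) * η))) * 1 := by
      gcongr
    refine e4.trans ?_
    calc C * (M ^ (-(ε₂ * γ)) * B + 1 / c₀ * (B * M ^ (-ε₂ + (1 + τ) * η))) * 1 =
        B / b * (2 * C * b * M ^ (-(ε₂ * γ)) +
          2 * C * b / c₀ * M ^ (-ε₂ + (1 + τ) * η)) / 2 := by
          field_simp
      _ ≤ B / b * (M ^ (-η) + M ^ (-η)) / 2 := by gcongr
      _ = B / b * M ^ (-η) := by ring
      _ ≤ s.card * M ^ (-η) := by gcongr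
  have hMη : 1 ≤ M ^ η := Real.one_le_rpow hM1 hη0.le
  have hupos : ∀ m : ℕ, M ≤ ((b ^ L * n + m : ℕ) : ℝ) := by
    intro m
    push_cast
    have : (0 : ℝ) ≤ m := Nat.cast_nonneg m
    have e1 : (b : ℝ) ^ L * n = n * B := by rw [hB]; ring
    linarith
  -- the frequencies
  have hfreq1 : ∀ q : ℕ, 1 ≤ q → (q : ℝ) ≤ M ^ η → q.Coprime D → ∀ l : ℕ, 1 ≤ l → l < q →
      ∀ q₀ : ℕ, 1 ≤ q₀ → q₀ ≤ Fintype.card Q → ∀ k : ℤ,
      ρ ≤ |q₀ * ((b : ℝ) ^ K * ((l : ℝ) / q)) - k| := by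
    intro q hq hqX hqD l hl1 hl2 q₀ h1 h2 k
    have hq0 : (0 : ℝ) < q := by exact_mod_cast hq
    have hcop1 : q.Coprime b := Nat.Coprime.coprime_dvd_right (Dvd.intro _ rfl) hqD
    have hcop2 : q.Coprime q₀ := Nat.Coprime.coprime_dvd_right
      ((Nat.dvd_factorial h1 h2).trans (Dvd.intro_left _ rfl)) hqD
    have hne : (q₀ * (b : ℤ) ^ K * l - k * q : ℤ) ≠ 0 := by
      intro h0
      have h3 : (q : ℤ) ∣ ((q₀ * b ^ K * l : ℕ) : ℤ) := by
        refine ⟨k, ?_⟩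
        push_cast
        linarith
      have h4 : q ∣ q₀ * b ^ K * l := by exact_mod_cast h3
      have h5 : q ∣ l := by
        have h6 : q.Coprime (q₀ * b ^ K) := Nat.Coprime.mul_right hcop2 (Nat.Coprime.pow_right _ hcop1)
        exact h6.dvd_of_dvd_mul_left h4
      have := Nat.le_of_dvd (by omega) h5
      omega
    have e1 : (q₀ : ℝ) * ((b : ℝ) ^ K * ((l : ℝ) / q)) - k =
        ((q₀ * (b : ℤ) ^ K * l - k * q : ℤ) : ℝ) / q := by
      push_cast
      field_simp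
    rw [e1, abs_div, abs_of_pos hq0, le_div_iff₀ hq0]
    have e2 : (1 : ℝ) ≤ |((q₀ * (b : ℤ) ^ K * l - k * q : ℤ) : ℝ)| := by
      have := Int.one_le_abs hne
      exact_mod_cast this
    refine le_trans ?_ e2
    have e3 : ρ ≤ 1 * M ^ (-η) * 1 := by
      rw [hρ]
      have hbK1 : 1 ≤ (b : ℝ) ^ K := one_le_pow₀ (by linarith)
      have g1 : c₀ ≤ 1 := min_le_left _ _
      have g2 : M ^ (-((1 + τ) * η)) ≤ M ^ (-η) :=
        Real.rpow_le_rpow_of_exponent_le hM1 (by nlinarith)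
      have g3 : ((b : ℝ) ^ K) ^ (-τ) ≤ 1 :=
        Real.rpow_le_one_of_one_le_of_nonpos hbK1 (by linarith)
      exact mul_le_mul (mul_le_mul g1 g2 (by positivity) zero_le_one) g3 (by positivity)
        (by positivity)
    calc ρ * q ≤ (1 * M ^ (-η) * 1) * M ^ η := by gcongr
      _ = 1 := by
        rw [one_mul, mul_one, ← Real.rpow_add hM0]
        simp
  have hfreq2 : ∀ q : ℕ, 1 ≤ q → (q : ℝ) ≤ M ^ η → ∀ l : ℕ, ∀ h : Fin r → ℤ, h ≠ 0 →
      (∀ j, |(h j : ℝ)| ≤ M ^ η) →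
      ∀ q₀ : ℕ, 1 ≤ q₀ → q₀ ≤ Fintype.card Q → ∀ k : ℤ,
      ρ ≤ |q₀ * ((b : ℝ) ^ K * ((l : ℝ) / q + ∑ j, (h j : ℝ) * (α j / q))) - k| := by
    intro q hq hqX l h hh hhX q₀ h1 h2 k
    have hq0 : (0 : ℝ) < q := by exact_mod_cast hq
    have hq₀0 : (0 : ℝ) < q₀ := by exact_mod_cast h1
    set H₀ : ℕ := ⌊M ^ η⌋₊ with hH₀
    have hH₀1 : 1 ≤ H₀ := Nat.le_floor (by rw [Nat.cast_one]; exact hMη)
    have hH₀X : (H₀ : ℝ) ≤ M ^ η := Nat.floor_le (by positivity)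
    have hhH : ∀ j, |h j| ≤ (H₀ : ℤ) := by
      intro j
      have h3 : ((h j).natAbs : ℝ) ≤ M ^ η := by
        rw [Nat.cast_natAbs]
        push_cast
        exact hhX j
      have h4 : (h j).natAbs ≤ H₀ := Nat.le_floor h3
      rw [Int.abs_eq_natAbs]
      exact_mod_cast h4
    have hdz := hdio (q₀ * b ^ K * H₀) (fun j => q₀ * (b : ℤ) ^ K * h j) (by
      intro h0
      apply hh
      funext j
      have h3 := congrFun h0 j
      simp only [Pi.zero_apply] at h3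
      have h4 : ((q₀ : ℤ) * (b : ℤ) ^ K) ≠ 0 := by
        have : (0 : ℤ) < (q₀ : ℤ) * (b : ℤ) ^ K := by
          have : (0 : ℤ) < q₀ := by exact_mod_cast h1
          positivity
        exact this.ne'
      exact (mul_eq_zero.1 h3).resolve_left h4) (by
      intro j
      rw [abs_mul, abs_mul, abs_pow, Nat.abs_cast, Nat.abs_cast]
      push_cast
      gcongr
      exact hhH j) (k * q - q₀ * (b : ℤ) ^ K * l)
    have e1 : (q₀ : ℝ) * ((b : ℝ) ^ K * ((l : ℝ) / q + ∑ j, (h j : ℝ) * (α j / q))) - k =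
        (∑ j, ((q₀ * (b : ℤ) ^ K * h j : ℤ) : ℝ) * α j -
          ((k * q - q₀ * (b : ℤ) ^ K * l : ℤ) : ℝ)) / q := by
      have e2 : ∑ j, ((q₀ * (b : ℤ) ^ K * h j : ℤ) : ℝ) * α j =
          q₀ * (b : ℝ) ^ K * ∑ j, (h j : ℝ) * α j := by
        rw [mul_sum]
        refine sum_congr rfl fun j _ => ?_
        push_cast
        ring
      have e3 : ∑ j, (h j : ℝ) * (α j / q) = (∑ j, (h j : ℝ) * α j) / q := by
        rw [sum_div]
        refine sum_congr rfl fun j _ => ?_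
        ring
      rw [e2, e3]
      push_cast
      field_simp
      ring
    rw [e1, abs_div, abs_of_pos hq0, le_div_iff₀ hq0]
    refine le_trans ?_ hdz
    have hH0 : (0 : ℝ) < ((q₀ * b ^ K * H₀ : ℕ) : ℝ) := by
      have : 0 < q₀ * b ^ K * H₀ := by positivity
      exact_mod_cast this
    have hHle : ((q₀ * b ^ K * H₀ : ℕ) : ℝ) ≤ nQ * (b : ℝ) ^ K * M ^ η := by
      push_cast
      have : (q₀ : ℝ) ≤ nQ := by rw [hnQ]; exact_mod_cast h2
      gcongr
    have e4 : (nQ * (b : ℝ) ^ K * M ^ η) ^ (-τ) ≤ ((q₀ * b ^ K * H₀ : ℕ) : ℝ) ^ (-τ) :=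
      Real.rpow_le_rpow_of_nonpos hH0 hHle (by linarith)
    have e5 : (nQ * (b : ℝ) ^ K * M ^ η) ^ (-τ) =
        nQ ^ (-τ) * ((b : ℝ) ^ K) ^ (-τ) * M ^ (-(τ * η)) := by
      rw [Real.mul_rpow (by positivity) (by positivity), Real.mul_rpow (by positivity)
        (by positivity), ← Real.rpow_mul hM0.le]
      congr 2
      ring
    calc ρ * q ≤ (c * nQ ^ (-τ)) * M ^ (-((1 + τ) * η)) * ((b : ℝ) ^ K) ^ (-τ) * M ^ η := by
          rw [hρ]
          gcongr
          exact min_le_right _ _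
      _ = c * (nQ * (b : ℝ) ^ K * M ^ η) ^ (-τ) := by
          rw [e5]
          have : M ^ (-(τ * η)) = M ^ (-((1 + τ) * η)) * M ^ η := by
            rw [← Real.rpow_add hM0]
            congr 1
            ring
          rw [this]
          ring
      _ ≤ _ := by gcongr
  obtain ⟨m, hm, hgap1, hgap2⟩ := hM ℕ s (fun m => ((b ^ L * n + m : ℕ) : ℤ))
    (fun m j => α j * ((b ^ L * n + m : ℕ) : ℝ) + β j) hsne (by
    intro m _
    have h1 := hupos m
    have h2 : M ^ η ≤ M := by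
      calc M ^ η ≤ M ^ (1 : ℝ) := Real.rpow_le_rpow_of_exponent_le hM1 (by linarith)
        _ = M := Real.rpow_one M
    have h3 : (((b ^ L * n + m : ℕ) : ℤ) : ℝ) = ((b ^ L * n + m : ℕ) : ℝ) := by push_cast; rfl
    rw [h3]
    linarith) (fun m _ j => hMlin _ (hupos m) j) (by
    intro q hq hqX hqD
    refine ⟨?_, ?_⟩
    · intro l hl1 hl2
      have h1 := hkey ((l : ℝ) / q) ((l : ℝ) / q * ((b : ℝ) ^ L * n))
        (hfreq1 q hq hqX hqD l hl1 hl2)
      refine le_trans (le_of_eq ?_) h1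
      congr 1
      refine sum_congr rfl fun m _ => ?_
      congr 1
      push_cast
      ring
    · intro l _ h hh hhX
      have h1 := hkey ((l : ℝ) / q + ∑ j, (h j : ℝ) * (α j / q))
        (((l : ℝ) / q + ∑ j, (h j : ℝ) * (α j / q)) * ((b : ℝ) ^ L * n) +
          ∑ j, (h j : ℝ) * (β j / q)) (hfreq2 q hq hqX l h hh hhX)
      refine le_trans (le_of_eq ?_) h1
      congr 1
      refine sum_congr rfl fun m _ => ?_
      congr 1
      have e1 : ∑ j, (h j : ℝ) * ((α j * ((b ^ L * n + m : ℕ) : ℝ) + β j) / q) =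
          (∑ j, (h j : ℝ) * (α j / q)) * ((b ^ L * n + m : ℕ) : ℝ) +
            ∑ j, (h j : ℝ) * (β j / q) := by
        rw [sum_mul, ← sum_add_distrib]
        refine sum_congr rfl fun j _ => ?_
        ring
      rw [e1]
      push_cast
      ring)
  rw [hs, mem_filter, mem_range] at hm
  refine ⟨m, hm.1, hm.2, ?_, hgap2⟩
  intro q hq
  have := hgap1 q hq
  push_cast at this ⊢
  exact this

end

end Pool.Agent.U602.JD
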